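import Mathlib

/-!
# Finite families of graphon sequences never realise all density domination exponents

We show: for every finite set `𝓕` of graphon sequences there are finite trees `G`, `H` such that the
density domination exponent `ρ(G,H)` is finite and is not the limit of the log-ratio along any
sequence of `𝓕`.
-/

open MeasureTheory Filter Topology unitInterval

namespace Pool.Agent.Results.MP_828339_co.FiniteFamily

/-- A graphon: a (jointly) measurable symmetric function `[0,1]² → [0,1]`. -/
structure Graphon where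
  /-- the underlying function -/
  toFun : I → I → ℝ
  /-- joint measurability -/
  measurable' : Measurable (Function.uncurry toFun)
  /-- symmetry -/
  symm' : ∀ x y, toFun x y = toFun y x
  /-- values are nonnegative -/
  nonneg' : ∀ x y, 0 ≤ toFun x y
  /-- values are at most one -/
  le_one' : ∀ x y, toFun x y ≤ 1

/-- The value `W (x u) (x v)` on the unordered pair `{u, v}` of vertices. -/
def Graphon.edgeVal {V : Type} (W : Graphon) (x : V → I) : Sym2 V → ℝ :=
  Sym2.lift ⟨fun u v => W.toFun (x u) (x v), fun _ _ => W.symm' _ _⟩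

open Classical in
/-- The homomorphism density `t(G,W) = ∫_{[0,1]^V} ∏_{uv ∈ E(G)} W (x u) (x v) dx`. -/
noncomputable def homDensity {V : Type} [Fintype V] (G : SimpleGraph V) (W : Graphon) : ℝ :=
  ∫ x : V → I, ∏ e ∈ G.edgeFinset, W.edgeVal x e

/-- The ratio `log t(H,W) / log t(G,W)`, as an extended real (with `log 0 = -∞`). -/
noncomputable def logRatio {U V : Type} [Fintype U] [Fintype V]
    (G : SimpleGraph U) (H : SimpleGraph V) (W : Graphon) : EReal :=
  ENNReal.log (ENNReal.ofReal (homDensity H W)) / ENNReal.log (ENNReal.ofReal (homDensity G W))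

/-- The density domination exponent `ρ(G,H)`: the supremum of `log t(H,W) / log t(G,W)` over all
graphons `W` with `t(G,W) ≠ 0` and `t(G,W) ≠ 1`. -/
noncomputable def rho {U V : Type} [Fintype U] [Fintype V]
    (G : SimpleGraph U) (H : SimpleGraph V) : EReal :=
  ⨆ W : {W : Graphon // homDensity G W ≠ 0 ∧ homDensity G W ≠ 1}, logRatio G H W.1

/-! ### Integration over cubes -/

lemma integral_cons {n : ℕ} (F : (Fin (n+1) → I) → ℝ) (hF : Integrable F) :
    ∫ x, F x = ∫ a : I, ∫ y : Fin n → I, F (Fin.cons a y) := by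
  have h := (volume_preserving_piFinSuccAbove (fun _ : Fin (n+1) => I) 0).symm
  have h2 := h.integral_comp' F
  rw [← h2]
  have hint : Integrable
      (fun z => F ((MeasurableEquiv.piFinSuccAbove (fun _ : Fin (n+1) => I) 0).symm z)) := by
    exact (h.integrable_comp_emb (MeasurableEquiv.measurableEmbedding _)).2 hF
  rw [MeasureTheory.Measure.volume_eq_prod, integral_prod _ hint]
  simp [MeasurableEquiv.piFinSuccAbove, Fin.insertNthEquiv]

lemma integrable_of_mem_Icc {α : Type*} [MeasurableSpace α] {μ : Measure α} [IsFiniteMeasure μ]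
    {f : α → ℝ} (hf : Measurable f) (h0 : ∀ x, 0 ≤ f x) (h1 : ∀ x, f x ≤ 1) :
    Integrable f μ := by
  refine Integrable.of_bound (C := 1) hf.aestronglyMeasurable (Eventually.of_forall fun x => ?_)
  rw [Real.norm_eq_abs, abs_of_nonneg (h0 x)]
  exact h1 x

/-! ### Trees given by parent functions -/

/-- The graph on `Fin (n+1)` with edges `{p i, i+1}`, `i < n`. -/
def parentGraph {n : ℕ} (p : Fin n → Fin (n+1)) : SimpleGraph (Fin (n+1)) :=
  SimpleGraph.fromEdgeSet (Set.range fun i : Fin n => s(p i, i.succ))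

section Parent

variable {n : ℕ} {p : Fin n → Fin (n+1)}

lemma edge_injective (hp : ∀ i, p i < i.succ) :
    Function.Injective fun i : Fin n => s(p i, i.succ) := by
  intro i j hij
  simp only [Sym2.eq_iff] at hij
  rcases hij with ⟨_, h⟩ | ⟨h1, h2⟩
  · exact Fin.succ_injective _ h
  · exfalso
    have hi := hp i
    have hj := hp j
    rw [h1] at hi
    rw [← h2] at hj
    exact absurd (hi.trans hj) (lt_irrefl _)

lemma parentGraph_edgeSet (hp : ∀ i, p i < i.succ) :
    (parentGraph p).edgeSet = Set.range fun i : Fin n => s(p i, i.succ) := by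
  rw [parentGraph, SimpleGraph.edgeSet_fromEdgeSet]
  ext e
  rw [Set.mem_sdiff]
  constructor
  · rintro ⟨h, _⟩
    exact h
  · rintro ⟨i, rfl⟩
    refine ⟨⟨i, rfl⟩, ?_⟩
    have h1 := hp i
    intro h2
    have h3 : Sym2.IsDiag s(p i, i.succ) := h2
    rw [Sym2.mk_isDiag_iff] at h3
    exact absurd h3 (ne_of_lt h1)

lemma parentGraph_adj (hp : ∀ i, p i < i.succ) (i : Fin n) :
    (parentGraph p).Adj (p i) i.succ := by
  rw [← SimpleGraph.mem_edgeSet, parentGraph_edgeSet hp]
  exact ⟨i, rfl⟩

lemma parentGraph_reachable (hp : ∀ i, p i < i.succ) :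
    ∀ (m : ℕ) (v : Fin (n+1)), (v : ℕ) ≤ m → (parentGraph p).Reachable 0 v := by
  intro m
  induction m with
  | zero =>
    intro v hv
    have : v = 0 := by
      apply Fin.ext
      simpa using hv
    rw [this]
  | succ m ih =>
    intro v hv
    rcases Fin.eq_zero_or_eq_succ v with h | ⟨i, h⟩
    · rw [h]
    · subst h
      have h1 := hp i
      have h2 : ((p i : Fin (n+1)) : ℕ) < (i.succ : Fin (n+1)) := h1
      have h3 : (parentGraph p).Reachable 0 (p i) := ih (p i) (by omega)
      exact h3.trans (parentGraph_adj hp i).reachable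

lemma parentGraph_connected (hp : ∀ i, p i < i.succ) : (parentGraph p).Connected := by
  have : Nonempty (Fin (n+1)) := ⟨0⟩
  refine SimpleGraph.Connected.mk ?_
  intro u v
  exact (parentGraph_reachable hp u u le_rfl).symm.trans (parentGraph_reachable hp v v le_rfl)

lemma parentGraph_isTree (hp : ∀ i, p i < i.succ) : (parentGraph p).IsTree := by
  rw [SimpleGraph.isTree_iff_connected_and_card]
  refine ⟨parentGraph_connected hp, ?_⟩
  rw [parentGraph_edgeSet hp, Nat.card_range_of_injective (edge_injective hp)]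
  simp

lemma homDensity_parentGraph (hp : ∀ i, p i < i.succ) (W : Graphon) :
    homDensity (parentGraph p) W = ∫ x : Fin (n+1) → I, ∏ i : Fin n, W.toFun (x (p i)) (x i.succ) := by
  classical
  unfold homDensity
  have h : (parentGraph p).edgeFinset = Finset.univ.image (fun i : Fin n => s(p i, i.succ)) := by
    ext e
    rw [SimpleGraph.mem_edgeFinset, parentGraph_edgeSet hp]
    simp
  congr 1
  ext x
  have h' : (parentGraph p).edgeFinset.prod (fun e => W.edgeVal x e)
      = ∏ i : Fin n, W.toFun (x (p i)) (x i.succ) := by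
    rw [h, Finset.prod_image (fun i _ j _ hij => edge_injective hp hij)]
    rfl
  convert h' using 2

end Parent

/-! ### Degrees and moments -/

namespace Graphon

variable (W : Graphon)

/-- degree function -/
noncomputable def deg (x : I) : ℝ := ∫ y, W.toFun x y

/-- moments of the degree function -/
noncomputable def mom (b : ℕ) : ℝ := ∫ x, W.deg x ^ b

lemma measurable_left (x : I) : Measurable (W.toFun x) :=
  W.measurable'.comp measurable_prodMk_left

lemma measurable_deg : Measurable W.deg := by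
  have h : StronglyMeasurable (Function.uncurry W.toFun) := W.measurable'.stronglyMeasurable
  exact (h.integral_prod_right (ν := (volume : Measure I))).measurable

lemma deg_nonneg (x : I) : 0 ≤ W.deg x := integral_nonneg fun y => W.nonneg' x y

lemma integrable_left (x : I) : Integrable (W.toFun x) :=
  integrable_of_mem_Icc (W.measurable_left x) (W.nonneg' x) (W.le_one' x)

lemma deg_le_one (x : I) : W.deg x ≤ 1 := by
  have h := integral_mono (W.integrable_left x) (integrable_const (1 : ℝ)) (W.le_one' x)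
  simpa [deg] using h

lemma integrable_deg_pow (b : ℕ) : Integrable (fun x => W.deg x ^ b) :=
  integrable_of_mem_Icc (W.measurable_deg.pow_const b) (fun x => pow_nonneg (W.deg_nonneg x) b)
    (fun x => pow_le_one₀ (W.deg_nonneg x) (W.deg_le_one x))

lemma mom_nonneg (b : ℕ) : 0 ≤ W.mom b :=
  integral_nonneg fun x => pow_nonneg (W.deg_nonneg x) b

lemma mom_zero : W.mom 0 = 1 := by simp [mom]

lemma mom_antitone : Antitone W.mom := by
  refine antitone_nat_of_succ_le fun b => ?_
  refine integral_mono (W.integrable_deg_pow _) (W.integrable_deg_pow _) fun x => ?_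
  exact pow_le_pow_of_le_one (W.deg_nonneg x) (W.deg_le_one x) (Nat.le_succ b)

lemma mom_le_one (b : ℕ) : W.mom b ≤ 1 := by
  have := W.mom_antitone (Nat.zero_le b)
  rwa [mom_zero] at this

lemma mom_sq_le (b : ℕ) : W.mom (b+1) ^ 2 ≤ W.mom b * W.mom (b+2) := by
  have key : ∀ s : ℝ, 0 ≤ W.mom b * (s * s) + (-2 * W.mom (b+1)) * s + W.mom (b+2) := by
    intro s
    have h1 : 0 ≤ ∫ x, W.deg x ^ b * (s - W.deg x) ^ 2 :=
      integral_nonneg fun x => mul_nonneg (pow_nonneg (W.deg_nonneg x) b) (sq_nonneg _)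
    have h2 : ∫ x, W.deg x ^ b * (s - W.deg x) ^ 2
        = W.mom b * (s * s) + (-2 * W.mom (b+1)) * s + W.mom (b+2) := by
      have e : (fun x => W.deg x ^ b * (s - W.deg x) ^ 2) = fun x =>
          (W.deg x ^ b * (s * s) + W.deg x ^ (b+1) * (-2 * s)) + W.deg x ^ (b+2) := by
        ext x; ring
      rw [e, integral_add, integral_add, integral_mul_const, integral_mul_const]
      · unfold mom; ring
      · exact (W.integrable_deg_pow b).mul_const _
      · exact (W.integrable_deg_pow (b+1)).mul_const _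
      · exact ((W.integrable_deg_pow b).mul_const _).add ((W.integrable_deg_pow (b+1)).mul_const _)
      · exact W.integrable_deg_pow (b+2)
    rw [h2] at h1
    exact h1
  have h := discrim_le_zero key
  unfold discrim at h
  nlinarith [h]

lemma mom_one_pow_le (b : ℕ) : W.mom 1 ^ b ≤ W.mom b := by
  have h := (convexOn_pow b).map_integral_le (μ := (volume : Measure I)) (f := W.deg)
    (continuousOn_pow b) isClosed_Ici
    (Eventually.of_forall fun x => W.deg_nonneg x)
    (by simpa using W.integrable_deg_pow 1) (W.integrable_deg_pow b)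
  simpa [mom] using h

end Graphon

/-- parent function of the star: everything is attached to `0`. -/
def starParent (n : ℕ) : Fin n → Fin (n+1) := fun _ => 0

lemma starParent_lt (n : ℕ) (i : Fin n) : starParent n i < i.succ := Fin.succ_pos i

/-- parent function of the broom: vertex `1` is attached to `0`, vertex `2` to `1`, and all
the remaining vertices `3, …, n+2` are attached to `0`. -/
def broomParent (n : ℕ) : Fin (n+2) → Fin (n+3) := fun i => if i = 1 then 1 else 0

lemma broomParent_lt (n : ℕ) (i : Fin (n+2)) : broomParent n i < i.succ := by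
  unfold broomParent
  split_ifs with h
  · rw [h, Fin.lt_def]
    simp only [Fin.val_succ, Fin.val_one]
    exact Nat.lt_succ_self 1
  · exact Fin.succ_pos i

lemma homDensity_star (n : ℕ) (W : Graphon) :
    homDensity (parentGraph (starParent n)) W = W.mom n := by
  rw [homDensity_parentGraph (starParent_lt n)]
  rw [integral_cons]
  · unfold Graphon.mom
    congr 1
    ext a
    have : ∀ y : Fin n → I, (∏ i : Fin n, W.toFun ((Fin.cons a y : Fin (n+1) → I) (starParent n i))
        ((Fin.cons a y : Fin (n+1) → I) i.succ)) = ∏ i : Fin n, W.toFun a (y i) := by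
      intro y
      simp [starParent]
    simp_rw [this]
    rw [integral_fintype_prod_volume_eq_prod (fun (_ : Fin n) (t : I) => W.toFun a t)]
    simp [Graphon.deg]
  · refine integrable_of_mem_Icc ?_ ?_ ?_
    · refine Finset.measurable_prod _ fun i _ => ?_
      have h : Measurable (fun x : Fin (n+1) → I => (x (starParent n i), x i.succ)) :=
        (measurable_pi_apply (starParent n i)).prodMk (measurable_pi_apply i.succ)
      exact W.measurable'.comp h
    · intro x
      exact Finset.prod_nonneg fun i _ => W.nonneg' _ _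
    · intro x
      exact Finset.prod_le_one (fun i _ => W.nonneg' _ _) fun i _ => W.le_one' _ _

lemma homDensity_broom (n : ℕ) (W : Graphon) :
    homDensity (parentGraph (broomParent n)) W
      = ∫ a : I, ∫ b : I, W.toFun a b * (W.deg b * W.deg a ^ n) := by
  rw [homDensity_parentGraph (broomParent_lt n)]
  have hprod : ∀ x : Fin (n+3) → I, (∏ i : Fin (n+2), W.toFun (x (broomParent n i)) (x i.succ))
      = W.toFun (x 0) (x 1) * (W.toFun (x 1) (x 2) * ∏ i : Fin n, W.toFun (x 0) (x i.succ.succ.succ)) := by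
    intro x
    rw [Fin.prod_univ_succ, Fin.prod_univ_succ]
    have h0 : broomParent n 0 = 0 := by
      unfold broomParent
      simp
    have h1 : broomParent n (Fin.succ 0) = 1 := by
      unfold broomParent
      simp
    have h2 : ∀ i : Fin n, broomParent n i.succ.succ = 0 := by
      intro i
      unfold broomParent
      rw [if_neg]
      intro h
      have := congrArg Fin.val h
      simp at this
    rw [h0, h1]
    simp only [h2]
    rfl
  simp_rw [hprod]
  have hm : ∀ k : ℕ, ∀ u v : Fin k, Measurable fun x : Fin k → I => W.toFun (x u) (x v) := by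
    intro k u v
    have h : Measurable (fun x : Fin k → I => (x u, x v)) :=
      (measurable_pi_apply u).prodMk (measurable_pi_apply v)
    exact W.measurable'.comp h
  have hprodle : ∀ (k : ℕ) (f : Fin k → ℝ), (∀ i, 0 ≤ f i) → (∀ i, f i ≤ 1) → ∏ i, f i ≤ 1 :=
    fun k f h0 h1 => Finset.prod_le_one (fun i _ => h0 i) fun i _ => h1 i
  rw [integral_cons]
  swap
  · refine integrable_of_mem_Icc ?_ ?_ ?_
    · exact (hm _ _ _).mul ((hm _ _ _).mul (Finset.measurable_prod _ fun i _ => hm _ _ _))
    · intro x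
      exact mul_nonneg (W.nonneg' _ _) (mul_nonneg (W.nonneg' _ _)
        (Finset.prod_nonneg fun i _ => W.nonneg' _ _))
    · intro x
      refine mul_le_one₀ (W.le_one' _ _) (mul_nonneg (W.nonneg' _ _)
        (Finset.prod_nonneg fun i _ => W.nonneg' _ _)) ?_
      refine mul_le_one₀ (W.le_one' _ _) (Finset.prod_nonneg fun i _ => W.nonneg' _ _) ?_
      exact hprodle _ _ (fun i => W.nonneg' _ _) (fun i => W.le_one' _ _)
  congr 1
  ext a
  rw [integral_cons]
  swap
  · refine integrable_of_mem_Icc ?_ ?_ ?_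
    · refine Measurable.mul ?_ (Measurable.mul ?_ (Finset.measurable_prod _ fun i _ => ?_))
      · exact (W.measurable_left a).comp (measurable_pi_apply _)
      · exact (hm _ _ _)
      · exact (W.measurable_left a).comp (measurable_pi_apply _)
    · intro x
      exact mul_nonneg (W.nonneg' _ _) (mul_nonneg (W.nonneg' _ _)
        (Finset.prod_nonneg fun i _ => W.nonneg' _ _))
    · intro x
      refine mul_le_one₀ (W.le_one' _ _) (mul_nonneg (W.nonneg' _ _)
        (Finset.prod_nonneg fun i _ => W.nonneg' _ _)) ?_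
      refine mul_le_one₀ (W.le_one' _ _) (Finset.prod_nonneg fun i _ => W.nonneg' _ _) ?_
      exact hprodle _ _ (fun i => W.nonneg' _ _) (fun i => W.le_one' _ _)
  congr 1
  ext b
  have h3 : ∀ y : Fin (n+1) → I,
      W.toFun ((Fin.cons a (Fin.cons b y : Fin (n+2) → I) : Fin (n+3) → I) 0)
        ((Fin.cons a (Fin.cons b y : Fin (n+2) → I) : Fin (n+3) → I) 1) *
      (W.toFun ((Fin.cons a (Fin.cons b y : Fin (n+2) → I) : Fin (n+3) → I) 1)
        ((Fin.cons a (Fin.cons b y : Fin (n+2) → I) : Fin (n+3) → I) 2) *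
        ∏ i : Fin n, W.toFun ((Fin.cons a (Fin.cons b y : Fin (n+2) → I) : Fin (n+3) → I) 0)
          ((Fin.cons a (Fin.cons b y : Fin (n+2) → I) : Fin (n+3) → I) i.succ.succ.succ))
      = W.toFun a b * ∏ i : Fin (n+1),
        (Fin.cons (W.toFun b) (fun _ => W.toFun a) : Fin (n+1) → I → ℝ) i (y i) := by
    intro y
    rw [Fin.prod_univ_succ]
    rfl
  simp_rw [h3]
  rw [integral_const_mul, integral_fintype_prod_volume_eq_prod
    (Fin.cons (W.toFun b) (fun _ => W.toFun a) : Fin (n+1) → I → ℝ), Fin.prod_univ_succ]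
  simp [Graphon.deg]

/-! ### Inequalities between the two densities -/

lemma homDensity_broom_le (n : ℕ) (W : Graphon) :
    homDensity (parentGraph (broomParent n)) W ≤ W.mom 1 * W.mom n := by
  rw [homDensity_broom]
  have h1 : ∀ a : I, (∫ b : I, W.toFun a b * (W.deg b * W.deg a ^ n)) ≤ W.mom 1 * W.deg a ^ n := by
    intro a
    have : ∫ b : I, W.deg b * W.deg a ^ n = W.mom 1 * W.deg a ^ n := by
      rw [integral_mul_const]
      simp [Graphon.mom]
    rw [← this]
    refine integral_mono ?_ ?_ fun b => ?_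
    · refine integrable_of_mem_Icc ?_ ?_ ?_
      · exact (W.measurable_left a).mul (W.measurable_deg.mul_const _)
      · intro b
        exact mul_nonneg (W.nonneg' _ _) (mul_nonneg (W.deg_nonneg _) (pow_nonneg (W.deg_nonneg _) _))
      · intro b
        refine mul_le_one₀ (W.le_one' _ _)
          (mul_nonneg (W.deg_nonneg _) (pow_nonneg (W.deg_nonneg _) _)) ?_
        exact mul_le_one₀ (W.deg_le_one _) (pow_nonneg (W.deg_nonneg _) _)
          (pow_le_one₀ (W.deg_nonneg _) (W.deg_le_one _))
    · have := (W.integrable_deg_pow 1).mul_const (W.deg a ^ n)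
      simpa using this
    · have h0 : 0 ≤ W.deg b * W.deg a ^ n :=
        mul_nonneg (W.deg_nonneg _) (pow_nonneg (W.deg_nonneg _) _)
      calc W.toFun a b * (W.deg b * W.deg a ^ n) ≤ 1 * (W.deg b * W.deg a ^ n) :=
            mul_le_mul_of_nonneg_right (W.le_one' _ _) h0
        _ = _ := one_mul _
  have h2 : ∫ a : I, W.mom 1 * W.deg a ^ n = W.mom 1 * W.mom n := by
    rw [integral_const_mul]
    rfl
  rw [← h2]
  refine integral_mono_of_nonneg (Eventually.of_forall fun a => ?_)
    ((W.integrable_deg_pow n).const_mul _) (Eventually.of_forall h1)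
  exact integral_nonneg fun b => mul_nonneg (W.nonneg' _ _)
    (mul_nonneg (W.deg_nonneg _) (pow_nonneg (W.deg_nonneg _) _))

lemma homDensity_nonneg {V : Type} [Fintype V] (G : SimpleGraph V) (W : Graphon) :
    0 ≤ homDensity G W := by
  classical
  unfold homDensity
  refine integral_nonneg fun x => Finset.prod_nonneg fun e _ => ?_
  induction e using Sym2.ind with
  | _ u v => exact W.nonneg' _ _

lemma logRatio_eq {U V : Type} [Fintype U] [Fintype V]
    (G : SimpleGraph U) (H : SimpleGraph V) (W : Graphon)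
    (hG : 0 < homDensity G W) (hH : 0 < homDensity H W) :
    logRatio G H W = ((Real.log (homDensity H W) / Real.log (homDensity G W) : ℝ) : EReal) := by
  unfold logRatio
  rw [ENNReal.log_ofReal, ENNReal.log_ofReal, if_neg (not_le.2 hG), if_neg (not_le.2 hH),
    EReal.coe_div]

/-! ### The pairs of trees -/

/-- The `j`-th first tree: a centre with `j+1` leaves and one pendant path of length two. -/
def treeG (j : ℕ) : SimpleGraph (Fin (j+1+3)) := parentGraph (broomParent (j+1))

/-- The `j`-th second tree: the star with `j` leaves. -/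
def treeH (j : ℕ) : SimpleGraph (Fin (j+1)) := parentGraph (starParent j)

/-- minus the logarithm of a moment -/
noncomputable def Graphon.y (W : Graphon) (b : ℕ) : ℝ := -Real.log (W.mom b)

lemma Graphon.mom_pos {W : Graphon} (h : 0 < W.mom 1) (b : ℕ) : 0 < W.mom b :=
  lt_of_lt_of_le (pow_pos h b) (W.mom_one_pow_le b)

lemma Graphon.y_nonneg (W : Graphon) (b : ℕ) : 0 ≤ W.y b := by
  unfold Graphon.y
  have := Real.log_nonpos (W.mom_nonneg b) (W.mom_le_one b)
  linarith

lemma Graphon.y_mono {W : Graphon} (h : 0 < W.mom 1) : Monotone W.y := by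
  intro a b hab
  unfold Graphon.y
  have := Real.log_le_log (Graphon.mom_pos h b) (W.mom_antitone hab)
  linarith

lemma Graphon.y_le_mul {W : Graphon} (h : 0 < W.mom 1) (b : ℕ) : W.y b ≤ b * W.y 1 := by
  unfold Graphon.y
  have := Real.log_le_log (pow_pos h b) (W.mom_one_pow_le b)
  rw [Real.log_pow] at this
  linarith

lemma Graphon.y_concave {W : Graphon} (h : 0 < W.mom 1) (b : ℕ) :
    W.y (b+2) - W.y (b+1) ≤ W.y (b+1) - W.y b := by
  unfold Graphon.y
  have h1 := Real.log_le_log (pow_pos (Graphon.mom_pos h (b+1)) 2) (W.mom_sq_le b)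
  rw [Real.log_pow, Real.log_mul (Graphon.mom_pos h b).ne' (Graphon.mom_pos h (b+2)).ne'] at h1
  push_cast at h1
  linarith

lemma Graphon.y_step {W : Graphon} (h : 0 < W.mom 1) (i m : ℕ) :
    W.y (i+m+1) - W.y (i+m) ≤ W.y (i+1) - W.y i := by
  induction m with
  | zero => simp
  | succ m ih => exact (Graphon.y_concave h (i+m)).trans ih

lemma Graphon.y_add_le {W : Graphon} (h : 0 < W.mom 1) (i m : ℕ) :
    W.y (i+m) ≤ W.y i + m * (W.y (i+1) - W.y i) := by
  induction m with
  | zero => simp
  | succ m ih =>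
    have h1 := Graphon.y_step h i m
    push_cast
    have h2 : i + (m+1) = i + m + 1 := rfl
    rw [h2]
    linarith

lemma homDensity_treeH (j : ℕ) (W : Graphon) : homDensity (treeH j) W = W.mom j :=
  homDensity_star j W

lemma homDensity_treeG_le (j : ℕ) (W : Graphon) :
    homDensity (treeG j) W ≤ W.mom 1 * W.mom (j+1) :=
  homDensity_broom_le (j+1) W

lemma homDensity_treeG_le_one (j : ℕ) (W : Graphon) : homDensity (treeG j) W ≤ 1 :=
  (homDensity_treeG_le j W).trans (mul_le_one₀ (W.mom_le_one _) (W.mom_nonneg _) (W.mom_le_one _))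

lemma mom_one_pos_of {j : ℕ} {W : Graphon} (h : 0 < homDensity (treeG j) W) : 0 < W.mom 1 := by
  have h1 := lt_of_lt_of_le h (homDensity_treeG_le j W)
  by_contra h2
  have h3 : W.mom 1 = 0 := le_antisymm (not_lt.1 h2) (W.mom_nonneg 1)
  rw [h3, zero_mul] at h1
  exact lt_irrefl _ h1

/-- the basic inequality: `-log t(G_j,W) ≥ y_1 + y_{j+1}` -/
lemma le_neg_log_treeG {j : ℕ} {W : Graphon} (h : 0 < homDensity (treeG j) W) :
    W.y 1 + W.y (j+1) ≤ -Real.log (homDensity (treeG j) W) := by
  have h1 := mom_one_pos_of h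
  have h2 := Real.log_le_log h (homDensity_treeG_le j W)
  rw [Real.log_mul h1.ne' (Graphon.mom_pos h1 (j+1)).ne'] at h2
  unfold Graphon.y
  linarith

lemma y_basic {j : ℕ} {W : Graphon} (h1 : 0 < W.mom 1) :
    (j+1) * W.y j ≤ j * (W.y 1 + W.y (j+1)) := by
  have h2 := Graphon.y_le_mul h1 j
  have h3 := Graphon.y_mono h1 (Nat.le_succ j)
  have h4 : (0:ℝ) ≤ j := Nat.cast_nonneg j
  have h5 := mul_le_mul_of_nonneg_left h3 h4
  have e : W.y (Nat.succ j) = W.y (j+1) := rfl
  rw [e] at h5
  nlinarith [h2, h5]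

lemma logRatio_tree_le {j : ℕ} {W : Graphon} (h0 : homDensity (treeG j) W ≠ 0)
    (h1 : homDensity (treeG j) W ≠ 1) :
    logRatio (treeG j) (treeH j) W ≤ ((j / (j+1) : ℝ) : EReal) := by
  have hpos : 0 < homDensity (treeG j) W := lt_of_le_of_ne (homDensity_nonneg _ _) (Ne.symm h0)
  have hlt : homDensity (treeG j) W < 1 := lt_of_le_of_ne (homDensity_treeG_le_one _ _) h1
  have hm := mom_one_pos_of hpos
  have hH : 0 < homDensity (treeH j) W := by
    rw [homDensity_treeH]
    exact Graphon.mom_pos hm j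
  rw [logRatio_eq _ _ _ hpos hH, EReal.coe_le_coe_iff, homDensity_treeH]
  have hlog : Real.log (homDensity (treeG j) W) < 0 := Real.log_neg hpos hlt
  have hj : (0:ℝ) < j + 1 := by positivity
  have e : Real.log (W.mom j) / Real.log (homDensity (treeG j) W)
      = W.y j / (-Real.log (homDensity (treeG j) W)) := by
    unfold Graphon.y
    rw [neg_div_neg_eq]
  rw [e, div_le_div_iff₀ (by linarith) hj]
  have h2 := y_basic (j := j) hm
  have h3 := mul_le_mul_of_nonneg_left (le_neg_log_treeG hpos) (Nat.cast_nonneg (α := ℝ) j)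
  linarith

/-! ### Extremal graphons -/

/-- step function: `1` on `[0,a]`, `ε` elsewhere -/
noncomputable def stepFn (a ε : ℝ) (x : I) : ℝ := if (x:ℝ) ≤ a then 1 else ε

lemma measurable_stepFn (a ε : ℝ) : Measurable (stepFn a ε) :=
  Measurable.ite (measurableSet_le measurable_subtype_coe measurable_const)
    measurable_const measurable_const

/-- graphon which is `1` as soon as one coordinate is at most `a`, and `ε` otherwise -/
noncomputable def extGraphon (a ε : ℝ) (h0 : 0 ≤ ε) (h1 : ε ≤ 1) : Graphon where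
  toFun x y := max (stepFn a ε x) (stepFn a ε y)
  measurable' := by
    have e : (Function.uncurry fun x y : I => max (stepFn a ε x) (stepFn a ε y))
        = fun z : I × I => max (stepFn a ε z.1) (stepFn a ε z.2) := by
      ext z; rfl
    rw [e]
    exact ((measurable_stepFn a ε).comp measurable_fst).max ((measurable_stepFn a ε).comp measurable_snd)
  symm' x y := max_comm _ _
  nonneg' x y := by
    refine le_max_of_le_left ?_
    unfold stepFn
    split_ifs
    · exact zero_le_one
    · exact h0
  le_one' x y := by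
    refine max_le ?_ ?_
    · unfold stepFn
      split_ifs
      · exact le_rfl
      · exact h1
    · unfold stepFn
      split_ifs
      · exact le_rfl
      · exact h1

section Ext

variable {a ε : ℝ} (h0 : 0 ≤ ε) (h1 : ε ≤ 1) (ha0 : 0 ≤ a) (ha1 : a ≤ 1)

lemma volume_A (ha0 : 0 ≤ a) (ha1 : a ≤ 1) : (volume : Measure I).real {x : I | (x:ℝ) ≤ a} = a := by
  have e : {x : I | (x:ℝ) ≤ a} = Set.Iic (⟨a, ha0, ha1⟩ : I) := by
    ext x
    exact Iff.rfl
  rw [e, Measure.real, unitInterval.volume_Iic]
  simp [ha0]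

lemma meas_A : MeasurableSet {x : I | (x:ℝ) ≤ a} :=
  measurableSet_le measurable_subtype_coe measurable_const

lemma ext_deg_of_mem {x : I} (hx : (x:ℝ) ≤ a) : (extGraphon a ε h0 h1).deg x = 1 := by
  have : ∀ y : I, (extGraphon a ε h0 h1).toFun x y = 1 := by
    intro y
    have h2 := (extGraphon a ε h0 h1).le_one' x y
    have h3 : 1 ≤ (extGraphon a ε h0 h1).toFun x y := by
      refine le_max_of_le_left ?_
      unfold stepFn
      rw [if_pos hx]
    exact le_antisymm h2 h3
  unfold Graphon.deg
  simp [this]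

lemma ext_deg_le {x : I} (hx : ¬ (x:ℝ) ≤ a) (ha0 : 0 ≤ a) (ha1 : a ≤ 1) :
    (extGraphon a ε h0 h1).deg x ≤ a + ε := by
  have hb : ∀ y : I, (extGraphon a ε h0 h1).toFun x y
      ≤ Set.indicator {x : I | (x:ℝ) ≤ a} (fun _ => (1:ℝ)) y + ε := by
    intro y
    show max (stepFn a ε x) (stepFn a ε y) ≤ _
    unfold stepFn
    rw [if_neg hx]
    by_cases hy : (y:ℝ) ≤ a
    · rw [if_pos hy, Set.indicator_of_mem (show y ∈ {x : I | (x:ℝ) ≤ a} from hy)]
      refine max_le ?_ ?_ <;> linarith
    · rw [if_neg hy, Set.indicator_of_notMem (show y ∉ {x : I | (x:ℝ) ≤ a} from hy)]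
      simp
  have hint : Integrable (fun y : I => Set.indicator {x : I | (x:ℝ) ≤ a} (fun _ => (1:ℝ)) y + ε) :=
    ((integrable_const (1:ℝ)).indicator meas_A).add (integrable_const ε)
  have h2 := integral_mono ((extGraphon a ε h0 h1).integrable_left x) hint hb
  rw [integral_add ((integrable_const (1:ℝ)).indicator meas_A) (integrable_const ε),
    integral_indicator_const _ meas_A, volume_A ha0 ha1] at h2
  simpa [Graphon.deg] using h2

lemma ext_mom_le (ha0 : 0 ≤ a) (ha1 : a ≤ 1) (j : ℕ) :
    (extGraphon a ε h0 h1).mom j ≤ a + (a + ε) ^ j := by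
  have hb : ∀ x : I, (extGraphon a ε h0 h1).deg x ^ j
      ≤ Set.indicator {x : I | (x:ℝ) ≤ a} (fun _ => (1:ℝ)) x + (a+ε)^j := by
    intro x
    by_cases hx : (x:ℝ) ≤ a
    · rw [ext_deg_of_mem h0 h1 hx, Set.indicator_of_mem (show x ∈ {x : I | (x:ℝ) ≤ a} from hx)]
      have : 0 ≤ (a+ε)^j := by positivity
      simpa using this
    · rw [Set.indicator_of_notMem (show x ∉ {x : I | (x:ℝ) ≤ a} from hx), zero_add]
      exact pow_le_pow_left₀ (Graphon.deg_nonneg _ _) (ext_deg_le h0 h1 hx ha0 ha1) j
  have hint : Integrable (fun y : I => Set.indicator {x : I | (x:ℝ) ≤ a} (fun _ => (1:ℝ)) y + (a+ε)^j) :=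
    ((integrable_const (1:ℝ)).indicator meas_A).add (integrable_const _)
  have h2 := integral_mono ((extGraphon a ε h0 h1).integrable_deg_pow j) hint hb
  rw [integral_add ((integrable_const (1:ℝ)).indicator meas_A) (integrable_const _),
    integral_indicator_const _ meas_A, volume_A ha0 ha1] at h2
  simpa [Graphon.mom] using h2

lemma ext_le_mom_one : ε ≤ (extGraphon a ε h0 h1).mom 1 := by
  have hW : ∀ x y : I, ε ≤ (extGraphon a ε h0 h1).toFun x y := by
    intro x y
    refine le_max_of_le_left ?_
    unfold stepFn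
    split_ifs
    · exact h1
    · exact le_rfl
  have hdeg : ∀ x : I, ε ≤ (extGraphon a ε h0 h1).deg x := by
    intro x
    have := integral_mono (integrable_const ε) ((extGraphon a ε h0 h1).integrable_left x) (hW x)
    simpa [Graphon.deg] using this
  have := integral_mono (integrable_const ε) ((extGraphon a ε h0 h1).integrable_deg_pow 1)
    (fun x => by simpa using hdeg x)
  simpa [Graphon.mom] using this

lemma ext_le_treeG (ha0 : 0 ≤ a) (ha1 : a ≤ 1) (j : ℕ) :
    a * ε ≤ homDensity (treeG j) (extGraphon a ε h0 h1) := by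
  set W := extGraphon a ε h0 h1 with hWdef
  have e : homDensity (treeG j) W = ∫ x : I, ∫ b : I, W.toFun x b * (W.deg b * W.deg x ^ (j+1)) :=
    homDensity_broom (j+1) W
  rw [e]
  have hb : ∀ x : I, Set.indicator {x : I | (x:ℝ) ≤ a} (fun _ => ε) x
      ≤ ∫ b : I, W.toFun x b * (W.deg b * W.deg x ^ (j+1)) := by
    intro x
    by_cases hx : (x:ℝ) ≤ a
    · rw [Set.indicator_of_mem (show x ∈ {x : I | (x:ℝ) ≤ a} from hx)]
      have h2 : ∀ b : I, W.toFun x b * (W.deg b * W.deg x ^ (j+1)) = W.deg b ^ 1 := by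
        intro b
        rw [hWdef, ext_deg_of_mem h0 h1 hx]
        have h3 := (extGraphon a ε h0 h1).le_one' x b
        have h4 : 1 ≤ (extGraphon a ε h0 h1).toFun x b := by
          refine le_max_of_le_left ?_
          unfold stepFn
          rw [if_pos hx]
        rw [le_antisymm h3 h4]
        ring
      simp_rw [h2]
      exact ext_le_mom_one h0 h1
    · rw [Set.indicator_of_notMem (show x ∉ {x : I | (x:ℝ) ≤ a} from hx)]
      exact integral_nonneg fun b => mul_nonneg (W.nonneg' _ _)
        (mul_nonneg (W.deg_nonneg _) (pow_nonneg (W.deg_nonneg _) _))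
  have h2 : ∫ x : I, Set.indicator {x : I | (x:ℝ) ≤ a} (fun _ => ε) x = a * ε := by
    rw [integral_indicator_const _ meas_A, volume_A ha0 ha1]
    rfl
  rw [← h2]
  refine integral_mono_of_nonneg (Eventually.of_forall fun x => ?_) ?_ (Eventually.of_forall hb)
  · exact Set.indicator_nonneg (fun _ _ => h0) x
  · refine integrable_of_mem_Icc ?_ ?_ ?_
    · have hm : Measurable (Function.uncurry
          fun x b : I => W.toFun x b * (W.deg b * W.deg x ^ (j+1))) := by
        have e2 : (Function.uncurry fun x b : I => W.toFun x b * (W.deg b * W.deg x ^ (j+1)))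
            = fun z : I × I => Function.uncurry W.toFun z * (W.deg z.2 * W.deg z.1 ^ (j+1)) := by
          ext z; rfl
        rw [e2]
        exact W.measurable'.mul ((W.measurable_deg.comp measurable_snd).mul
          ((W.measurable_deg.comp measurable_fst).pow_const _))
      exact (hm.stronglyMeasurable.integral_prod_right (ν := (volume : Measure I))).measurable
    · intro x
      exact integral_nonneg fun b => mul_nonneg (W.nonneg' _ _)
        (mul_nonneg (W.deg_nonneg _) (pow_nonneg (W.deg_nonneg _) _))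
    · intro x
      have h3 : ∀ b : I, W.toFun x b * (W.deg b * W.deg x ^ (j+1)) ≤ 1 := by
        intro b
        refine mul_le_one₀ (W.le_one' _ _)
          (mul_nonneg (W.deg_nonneg _) (pow_nonneg (W.deg_nonneg _) _)) ?_
        exact mul_le_one₀ (W.deg_le_one _) (pow_nonneg (W.deg_nonneg _) _)
          (pow_le_one₀ (W.deg_nonneg _) (W.deg_le_one _))
      have h4 := integral_mono_of_nonneg (μ := (volume : Measure I))
        (Eventually.of_forall fun b : I => mul_nonneg (W.nonneg' x b)
          (mul_nonneg (W.deg_nonneg b) (pow_nonneg (W.deg_nonneg x) (j+1))))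
        (integrable_const (1:ℝ)) (Eventually.of_forall h3)
      simpa using h4

end Ext

/-- lower bound for the log-ratio of the extremal graphons with `ε = 2^{-m}`, `a = ε^j` -/
lemma exists_ratio (j m : ℕ) (hj : 1 ≤ j) (hm : 3 ≤ m) :
    ∃ W : Graphon, homDensity (treeG j) W ≠ 0 ∧ homDensity (treeG j) W ≠ 1 ∧
      ((j / (j+1) - 1 / m : ℝ) : EReal) ≤ logRatio (treeG j) (treeH j) W := by
  have hmpos : (0:ℝ) < m := by
    have : 0 < m := by omega
    exact_mod_cast this
  set ε : ℝ := (1/2)^m with hε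
  have hε0 : 0 < ε := by positivity
  have hε1 : ε ≤ 1 := pow_le_one₀ (by norm_num) (by norm_num)
  set a : ℝ := ε^j with ha
  have ha0 : 0 < a := by positivity
  have ha1 : a ≤ 1 := pow_le_one₀ hε0.le hε1
  have hae : a ≤ ε := by
    calc a = ε^j := rfl
      _ ≤ ε^1 := pow_le_pow_of_le_one hε0.le hε1 hj
      _ = ε := pow_one ε
  set W := extGraphon a ε hε0.le hε1 with hW
  have hG : a * ε ≤ homDensity (treeG j) W := ext_le_treeG hε0.le hε1 ha0.le ha1 j
  have hGpos : 0 < homDensity (treeG j) W := lt_of_lt_of_le (mul_pos ha0 hε0) hG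
  have hm1 := mom_one_pos_of hGpos
  have hmom : W.mom j ≤ 2^(j+1) * ε^j := by
    have h1 : W.mom j ≤ a + (a+ε)^j := ext_mom_le hε0.le hε1 ha0.le ha1 j
    have h2 : (a+ε)^j ≤ (2*ε)^j := pow_le_pow_left₀ (by positivity) (by linarith) j
    have h3 : (1:ℝ) ≤ 2^j := one_le_pow₀ (by norm_num)
    have h4 : a ≤ 2^j * ε^j := by
      calc a = 1 * ε^j := by rw [one_mul]
        _ ≤ 2^j * ε^j := mul_le_mul_of_nonneg_right h3 (by positivity)
    calc W.mom j ≤ a + (2*ε)^j := by linarith
      _ ≤ 2^j * ε^j + (2*ε)^j := by linarith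
      _ = 2^(j+1) * ε^j := by rw [mul_pow]; ring
  have hl2 : 0 < Real.log 2 := Real.log_pos (by norm_num)
  have hlogε : Real.log ε = -(m * Real.log 2) := by
    rw [hε, Real.log_pow, one_div, Real.log_inv]
    ring
  have hlogm : Real.log (W.mom j) ≤ ((j:ℝ)+1 - m * j) * Real.log 2 := by
    have h1 := Real.log_le_log (Graphon.mom_pos hm1 j) hmom
    rw [Real.log_mul (by positivity) (by positivity), Real.log_pow, Real.log_pow, hlogε] at h1
    push_cast at h1
    linarith
  have hlogG : -(((j:ℝ)+1) * (m * Real.log 2)) ≤ Real.log (homDensity (treeG j) W) := by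
    have h1 := Real.log_le_log (mul_pos ha0 hε0) hG
    rw [Real.log_mul ha0.ne' hε0.ne', ha, Real.log_pow, hlogε] at h1
    linarith
  have hj1 : (1:ℝ) ≤ j := by exact_mod_cast hj
  have hm3 : (3:ℝ) ≤ m := by exact_mod_cast hm
  have hneg : Real.log (W.mom j) < 0 := by
    have : ((j:ℝ)+1 - m * j) < 0 := by nlinarith
    have := mul_neg_of_neg_of_pos this hl2
    linarith
  have hGle : homDensity (treeG j) W ≤ W.mom j := by
    refine (homDensity_treeG_le j W).trans ?_
    calc W.mom 1 * W.mom (j+1) ≤ 1 * W.mom (j+1) :=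
          mul_le_mul_of_nonneg_right (W.mom_le_one 1) (W.mom_nonneg _)
      _ = W.mom (j+1) := one_mul _
      _ ≤ W.mom j := W.mom_antitone (Nat.le_succ j)
  have hlogGneg : Real.log (homDensity (treeG j) W) < 0 :=
    lt_of_le_of_lt (Real.log_le_log hGpos hGle) hneg
  refine ⟨W, hGpos.ne', ?_, ?_⟩
  · intro h
    rw [h, Real.log_one] at hlogGneg
    exact lt_irrefl _ hlogGneg
  · have hH : 0 < homDensity (treeH j) W := by
      rw [homDensity_treeH]
      exact Graphon.mom_pos hm1 j
    rw [logRatio_eq _ _ _ hGpos hH, EReal.coe_le_coe_iff, homDensity_treeH]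
    rw [← neg_div_neg_eq (Real.log (W.mom j))]
    rw [le_div_iff₀ (by linarith)]
    have hT0 : 0 < -Real.log (homDensity (treeG j) W) := by linarith
    have hT : -Real.log (homDensity (treeG j) W) ≤ ((j:ℝ)+1) * (m * Real.log 2) := by linarith
    have hc : 0 ≤ ((j:ℝ) / (j+1) - 1 / m) := by
      rw [sub_nonneg, div_le_div_iff₀ hmpos (by positivity)]
      nlinarith
    calc ((j:ℝ) / (j+1) - 1 / m) * -Real.log (homDensity (treeG j) W)
        ≤ ((j:ℝ) / (j+1) - 1 / m) * (((j:ℝ)+1) * (m * Real.log 2)) :=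
          mul_le_mul_of_nonneg_left hT hc
      _ = (m * j - ((j:ℝ)+1)) * Real.log 2 := by
          field_simp
      _ ≤ -Real.log (W.mom j) := by linarith

lemma rho_tree (j : ℕ) (hj : 1 ≤ j) : rho (treeG j) (treeH j) = ((j / (j+1) : ℝ) : EReal) := by
  apply le_antisymm
  · unfold rho
    exact iSup_le fun W => logRatio_tree_le W.2.1 W.2.2
  · have hlim : Tendsto (fun m : ℕ => ((j / (j+1) - 1 / m : ℝ) : EReal)) atTop
        (𝓝 ((j / (j+1) : ℝ) : EReal)) := by
      rw [EReal.tendsto_coe]
      have h1 : Tendsto (fun m : ℕ => (1:ℝ) / m) atTop (𝓝 0) := tendsto_one_div_atTop_nhds_zero_nat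
      simpa using (tendsto_const_nhds (x := (j / (j+1) : ℝ))).sub h1
    refine le_of_tendsto hlim ?_
    filter_upwards [eventually_ge_atTop 3] with m hm
    obtain ⟨W, h0, h1, h2⟩ := exists_ratio j m hj hm
    refine h2.trans ?_
    exact le_iSup (fun W : {W : Graphon // homDensity (treeG j) W ≠ 0 ∧ homDensity (treeG j) W ≠ 1} =>
      logRatio (treeG j) (treeH j) W.1) ⟨W, h0, h1⟩

/-! ### A sequence can be tight for at most one `j` -/

lemma tight_bound {j : ℕ} (hj : 1 ≤ j) {W : ℕ → Graphon}
    (h : Tendsto (fun n => logRatio (treeG j) (treeH j) (W n)) atTop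
      (𝓝 ((j / (j+1) : ℝ) : EReal))) :
    ∃ r : ℕ → ℝ, Tendsto r atTop (𝓝 (j / (j+1) : ℝ)) ∧
      ∀ᶠ n in atTop, 0 < (W n).mom 1 ∧ 0 < (W n).y 1 ∧
        r n * ((W n).y 1 + (W n).y (j+1)) ≤ (W n).y j := by
  have hjpos : (0:ℝ) < j / (j+1) := by
    have : (0:ℝ) < j := by exact_mod_cast hj
    positivity
  have hev : ∀ᶠ n in atTop, (0 : EReal) < logRatio (treeG j) (treeH j) (W n) := by
    refine h.eventually (lt_mem_nhds ?_)
    exact_mod_cast hjpos
  have hev2 : ∀ᶠ n in atTop, 0 < homDensity (treeG j) (W n) ∧ homDensity (treeG j) (W n) < 1 ∧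
      logRatio (treeG j) (treeH j) (W n)
        = ((Real.log (homDensity (treeH j) (W n)) / Real.log (homDensity (treeG j) (W n)) : ℝ) : EReal) := by
    filter_upwards [hev] with n hn
    have h0 : homDensity (treeG j) (W n) ≠ 0 := by
      intro h0
      unfold logRatio at hn
      rw [h0] at hn
      simp at hn
    have h1 : homDensity (treeG j) (W n) ≠ 1 := by
      intro h1
      unfold logRatio at hn
      rw [h1] at hn
      simp at hn
    have hpos : 0 < homDensity (treeG j) (W n) :=
      lt_of_le_of_ne (homDensity_nonneg _ _) (Ne.symm h0)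
    have hH : 0 < homDensity (treeH j) (W n) := by
      rw [homDensity_treeH]
      exact Graphon.mom_pos (mom_one_pos_of hpos) j
    exact ⟨hpos, lt_of_le_of_ne (homDensity_treeG_le_one _ _) h1, logRatio_eq _ _ _ hpos hH⟩
  refine ⟨fun n => Real.log (homDensity (treeH j) (W n)) / Real.log (homDensity (treeG j) (W n)),
    ?_, ?_⟩
  · rw [← EReal.tendsto_coe]
    refine h.congr' ?_
    filter_upwards [hev2] with n hn
    exact hn.2.2
  · filter_upwards [hev, hev2] with n hn hn2
    obtain ⟨hpos, hlt, heq⟩ := hn2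
    rw [heq] at hn
    have hr : 0 < Real.log (homDensity (treeH j) (W n)) / Real.log (homDensity (treeG j) (W n)) := by
      exact_mod_cast hn
    have hm := mom_one_pos_of hpos
    have hlog : Real.log (homDensity (treeG j) (W n)) < 0 := Real.log_neg hpos hlt
    have hy : (W n).y j = Real.log (homDensity (treeH j) (W n)) /
        Real.log (homDensity (treeG j) (W n)) * (-Real.log (homDensity (treeG j) (W n))) := by
      rw [homDensity_treeH]
      unfold Graphon.y
      rw [mul_neg, div_mul_cancel₀ _ hlog.ne]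
    refine ⟨hm, ?_, ?_⟩
    · have h1 : 0 < (W n).y j := by
        rw [hy]
        exact mul_pos hr (by linarith)
      have h2 := Graphon.y_le_mul hm j
      by_contra h3
      have h4 : (j:ℝ) * (W n).y 1 ≤ 0 :=
        mul_nonpos_of_nonneg_of_nonpos (Nat.cast_nonneg j) (not_lt.1 h3)
      linarith
    · rw [hy]
      exact mul_le_mul_of_nonneg_left (le_neg_log_treeG hpos) hr.le

lemma not_tight_twice {i j : ℕ} (hi : 1 ≤ i) (hij : i < j) {W : ℕ → Graphon}
    (h1 : Tendsto (fun n => logRatio (treeG i) (treeH i) (W n)) atTop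
      (𝓝 ((i / (i+1) : ℝ) : EReal)))
    (h2 : Tendsto (fun n => logRatio (treeG j) (treeH j) (W n)) atTop
      (𝓝 ((j / (j+1) : ℝ) : EReal))) : False := by
  obtain ⟨r, hr, hr'⟩ := tight_bound hi h1
  obtain ⟨s, hs, hs'⟩ := tight_bound (hi.trans hij.le) h2
  have hi0 : (0:ℝ) < i := by exact_mod_cast hi
  have hj0 : (0:ℝ) < j := by exact_mod_cast (lt_of_lt_of_le hi hij.le)
  obtain ⟨m, rfl⟩ : ∃ m, j = i + m := ⟨j - i, by omega⟩
  -- eventual bounds on `r`, `s`
  have hrpos : ∀ᶠ n in atTop, 0 < r n := hr.eventually (lt_mem_nhds (by positivity))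
  have hspos : ∀ᶠ n in atTop, 0 < s n := hs.eventually (lt_mem_nhds (by positivity))
  have hslt : ∀ᶠ n in atTop, s n < 1 := by
    refine hs.eventually (gt_mem_nhds ?_)
    rw [div_lt_one (by positivity)]
    linarith
  have key : ∀ᶠ n in atTop, s n / (1 - s n) ≤ i + m * (i / r n - i - 1) := by
    filter_upwards [hrpos, hspos, hslt, hr', hs'] with n hrn hsn hsn1 ⟨hm, hy1, hri⟩ ⟨_, _, hsj⟩
    set y := (W n).y with hy
    have c1 : y i ≤ i * y 1 := Graphon.y_le_mul hm i
    have c2 : y (i+m) ≤ y (i+m+1) := Graphon.y_mono hm (Nat.le_succ _)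
    have c3 : y (i+m) ≤ y i + m * (y (i+1) - y i) := Graphon.y_add_le hm i m
    have c4 : y i ≤ y (i+1) := Graphon.y_mono hm (Nat.le_succ _)
    -- upper bound for y (i+1) - y i
    have d1 : y (i+1) ≤ y i / r n - y 1 := by
      rw [le_sub_iff_add_le, le_div_iff₀ hrn]
      linarith
    -- r n ≤ 1
    have hr1 : y i * (1 / r n - 1) ≤ i * y 1 * (1 / r n - 1) := by
      by_cases hr1 : r n ≤ 1
      · refine mul_le_mul_of_nonneg_right c1 ?_
        rw [sub_nonneg, le_div_iff₀ hrn]
        linarith
      · exfalso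
        have : 0 ≤ y (i+1) := (W n).y_nonneg _
        have h5 : y i ≤ 1 * (y 1 + y (i+1)) := by linarith
        have h6 : 1 * (y 1 + y (i+1)) < r n * (y 1 + y (i+1)) :=
          mul_lt_mul_of_pos_right (not_le.1 hr1) (by linarith)
        linarith
    have d2 : y (i+1) - y i ≤ (i / r n - i - 1) * y 1 := by
      have e1 : y i / r n - y 1 - y i = y i * (1 / r n - 1) - y 1 := by ring
      have e2 : (i / r n - i - 1) * y 1 = i * y 1 * (1 / r n - 1) - y 1 := by ring
      linarith
    have d3 : y (i+m) ≤ (i + m * (i / r n - i - 1)) * y 1 := by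
      have : (m:ℝ) * (y (i+1) - y i) ≤ m * ((i / r n - i - 1) * y 1) :=
        mul_le_mul_of_nonneg_left d2 (Nat.cast_nonneg m)
      linarith
    have d4 : s n / (1 - s n) * y 1 ≤ y (i+m) := by
      have h1s : 0 < 1 - s n := by linarith
      rw [div_mul_eq_mul_div, div_le_iff₀ h1s]
      have : s n * (y 1 + y (i+m)) ≤ y (i+m) :=
        (mul_le_mul_of_nonneg_left (by linarith) hsn.le).trans hsj
      linarith
    exact le_of_mul_le_mul_right (d4.trans d3) hy1
  have lim1 : Tendsto (fun n => s n / (1 - s n)) atTop (𝓝 ((i+m : ℕ) : ℝ)) := by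
    have h3 : Tendsto (fun n => s n / (1 - s n)) atTop
        (𝓝 ((((i+m : ℕ) : ℝ) / (((i+m : ℕ) : ℝ)+1)) / (1 - ((i+m : ℕ) : ℝ) / (((i+m : ℕ) : ℝ)+1)))) := by
      refine hs.div (tendsto_const_nhds.sub hs) ?_
      have h5 : (0:ℝ) < ((i+m : ℕ) : ℝ)+1 := by positivity
      have h6 : ((i+m : ℕ) : ℝ) / (((i+m : ℕ) : ℝ)+1) < 1 := by
        rw [div_lt_one h5]
        linarith
      exact (sub_pos.2 h6).ne'
    have h4 : (((i+m : ℕ) : ℝ) / (((i+m : ℕ) : ℝ)+1)) / (1 - ((i+m : ℕ) : ℝ) / (((i+m : ℕ) : ℝ)+1))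
        = ((i+m : ℕ) : ℝ) := by
      have : (0:ℝ) < ((i+m : ℕ) : ℝ)+1 := by positivity
      field_simp
      ring
    rwa [h4] at h3
  have lim2 : Tendsto (fun n => (i:ℝ) + m * (i / r n - i - 1)) atTop (𝓝 (i:ℝ)) := by
    have h3 : Tendsto (fun n => (i:ℝ) + m * (i / r n - i - 1)) atTop
        (𝓝 ((i:ℝ) + m * (i / (i / (i+1)) - i - 1))) := by
      refine tendsto_const_nhds.add (tendsto_const_nhds.mul ?_)
      refine (Tendsto.sub (Tendsto.sub (tendsto_const_nhds.div hr ?_) tendsto_const_nhds)
        tendsto_const_nhds)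
      positivity
    have h4 : (i:ℝ) + m * (i / (i / (i+1)) - i - 1) = i := by
      field_simp
      ring
    rwa [h4] at h3
  have hle := le_of_tendsto_of_tendsto lim1 lim2 key
  have : i + m ≤ i := by exact_mod_cast hle
  omega

/-- **Main theorem.** For every finite set `𝓕` of graphon sequences there are finite trees `G`
and `H` such that `ρ(G,H)` is finite, and for no sequence `W` in `𝓕` do the ratios
`log t(H,W_n) / log t(G,W_n)` converge to `ρ(G,H)`. -/
theorem result (𝓕 : Set (ℕ → Graphon)) (h𝓕 : 𝓕.Finite) :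
    ∃ (a b : ℕ) (G : SimpleGraph (Fin a)) (H : SimpleGraph (Fin b)),
      G.IsTree ∧ H.IsTree ∧ rho G H ≠ ⊥ ∧ rho G H ≠ ⊤ ∧
      ∀ W ∈ 𝓕, ¬ Tendsto (fun n => logRatio G H (W n)) atTop (𝓝 (rho G H)) := by
  by_contra hcon
  push Not at hcon
  have hex : ∀ j : ℕ, ∃ W ∈ 𝓕, Tendsto (fun n => logRatio (treeG (j+1)) (treeH (j+1)) (W n)) atTop
      (𝓝 (((j+1 : ℕ) / ((j+1 : ℕ)+1) : ℝ) : EReal)) := by
    intro j
    have hrho := rho_tree (j+1) (Nat.succ_pos j)
    obtain ⟨W, hW, hT⟩ := hcon (j+1+1+3) (j+1+1) (treeG (j+1)) (treeH (j+1))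
      (parentGraph_isTree (broomParent_lt _)) (parentGraph_isTree (starParent_lt _))
      (by rw [hrho]; exact EReal.coe_ne_bot _) (by rw [hrho]; exact EReal.coe_ne_top _)
    rw [hrho] at hT
    exact ⟨W, hW, hT⟩
  choose f hf hfT using hex
  have hinj : Function.Injective f := by
    intro i j hij
    by_contra hne
    rcases lt_or_gt_of_ne hne with h | h
    · refine not_tight_twice (Nat.succ_pos i) (Nat.succ_lt_succ h) (hfT i) ?_
      rw [hij]
      exact hfT j
    · refine not_tight_twice (Nat.succ_pos j) (Nat.succ_lt_succ h) (hfT j) ?_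
      rw [← hij]
      exact hfT i
  exact Set.infinite_of_injective_forall_mem hinj hf h𝓕

end Pool.Agent.Results.MP_828339_co.FiniteFamily
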